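import Pool.Agent.Q241.LS.Chr

/-! # Project LS (helper283), job CRI: the criterion -/

set_option autoImplicit false

namespace Pool.Agent.Q241.LS

open NumberField IsDedekindDomain Filter Topology Finset Pool.Agent.Q283.LQ Pool.Agent.Q283.LS

section padic2

lemma two_dvd_or_sub_one (x : ℤ_[2]) : (2 : ℤ_[2]) ∣ x ∨ (2 : ℤ_[2]) ∣ x - 1 := by
  have h := PadicInt.zmodRepr_spec x
  have h2 := h.2
  rw [PadicInt.maximalIdeal_eq_span_p, Ideal.mem_span_singleton] at h2
  have h3 : x.zmodRepr = 0 ∨ x.zmodRepr = 1 := by omega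
  rcases h3 with h3 | h3
  · left
    rw [h3] at h2
    simpa using h2
  · right
    rw [h3] at h2
    simpa using h2

lemma not_two_dvd_one : ¬ (2 : ℤ_[2]) ∣ 1 := by
  intro h
  refine not4 ?_
  obtain ⟨c, hc⟩ := h
  exact ⟨c, by linear_combination 2 * hc⟩

lemma two_dvd_add_iff {p q : ℤ_[2]} : (2 : ℤ_[2]) ∣ p + q ↔ ((2 : ℤ_[2]) ∣ p ↔ (2 : ℤ_[2]) ∣ q) := by
  constructor
  · intro h
    exact ⟨fun hp => (dvd_add_right hp).1 h, fun hq => (dvd_add_left hq).1 h⟩
  · intro h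
    rcases two_dvd_or_sub_one p with hp | hp
    · exact dvd_add hp (h.1 hp)
    · rcases two_dvd_or_sub_one q with hq | hq
      · exact dvd_add (h.2 hq) hq
      · have e : p + q = (p - 1) + (q - 1) + 2 * 1 := by ring
        rw [e]
        exact dvd_add (dvd_add hp hq) (dvd_mul_right _ _)

lemma cont_of_pow {X : Type} [TopologicalSpace X] {w : X → ℤ_[2]} (m : ℕ)
    (h : Continuous fun x => (2 : ℤ_[2]) ^ m * w x) : Continuous w := by
  have h1 : Topology.IsClosedEmbedding (fun x : ℤ_[2] => (2 : ℤ_[2]) ^ m * x) := by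
    refine Continuous.isClosedEmbedding (by fun_prop) ?_
    intro a b hab
    exact mul_left_cancel₀ (pow_ne_zero m two_ne_zero) hab
  exact h1.isEmbedding.continuous_iff.2 h

end padic2

section

variable {Ω : Type} [Field Ω] [CharZero Ω] {F : IntermediateField ℚ Ω}

lemma mem_of_fix [IsAlgClosed Ω] [Algebra.IsAlgebraic ℚ Ω] {y : Ω} (h : ∀ σ ∈ F.fixingSubgroup, σ y = y) :
    y ∈ F := by
  have : IsAlgClosure ℚ Ω := ⟨inferInstance, inferInstance⟩
  have : IsGalois ℚ Ω := IsAlgClosure.isGalois ℚ Ω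
  rw [← InfiniteGalois.fixedField_fixingSubgroup F, IntermediateField.mem_fixedField_iff]
  exact h

lemma par_mul {σ : Ω ≃ₐ[ℚ] Ω} (hσ : σ ∈ F.fixingSubgroup) {a b : F} {y z : Ω} (hy : y ^ 2 = (a : Ω))
    (hz : z ^ 2 = (b : Ω)) (hy0 : y ≠ 0) (hz0 : z ≠ 0) {p q : ℤ_[2]} (hp : (2 : ℤ_[2]) ∣ p ↔ σ y = y)
    (hq : (2 : ℤ_[2]) ∣ q ↔ σ z = z) : (2 : ℤ_[2]) ∣ p + q ↔ σ (y * z) = y * z := by
  rw [two_dvd_add_iff, hp, hq, map_mul]
  have hyz : y * z ≠ 0 := mul_ne_zero hy0 hz0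
  have hny : -y ≠ y := fun h => hy0 (self_eq_neg.1 h.symm)
  have hnz : -z ≠ z := fun h => hz0 (self_eq_neg.1 h.symm)
  have hnyz : -(y * z) ≠ y * z := fun h => hyz (self_eq_neg.1 h.symm)
  rcases pm_sqrt hσ hy with h1 | h1 <;> rcases pm_sqrt hσ hz with h2 | h2 <;>
    simp [h1, h2, hny, hnz, hnyz]

lemma fix_of_isSquare {σ : Ω ≃ₐ[ℚ] Ω} (hσ : σ ∈ F.fixingSubgroup) {a : F} {y : Ω} (hy : y ^ 2 = (a : Ω))
    (ha : IsSquare a) : σ y = y := by
  obtain ⟨u, rfl⟩ := ha
  have h1 : y ^ 2 = (u : Ω) ^ 2 := by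
    rw [hy, pow_two]
    push_cast
    rfl
  rcases sq_eq_sq_iff_eq_or_eq_neg.1 h1 with h | h
  · rw [h]
    exact fix_eq hσ u
  · rw [h, map_neg, fix_eq hσ u]

lemma sgn_cont [Algebra.IsAlgebraic ℚ Ω] (x : Ω) : Continuous fun σ : F.fixingSubgroup => sgn x σ.1 := by
  classical
  have h1 : IsClopen {σ : Ω ≃ₐ[ℚ] Ω | σ x = x} := by
    have h2 : {σ : Ω ≃ₐ[ℚ] Ω | σ x = x} = ((IntermediateField.adjoin ℚ {x}).fixingSubgroup : Set (Ω ≃ₐ[ℚ] Ω)) := by
      ext σ
      constructor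
      · intro h
        rw [SetLike.mem_coe, IntermediateField.mem_fixingSubgroup_iff]
        intro w hw
        induction hw using IntermediateField.adjoin_induction with
        | mem w hw =>
          rw [Set.mem_singleton_iff] at hw
          rw [hw]
          exact h
        | algebraMap q => exact σ.commutes q
        | add a b _ _ ha hb => rw [map_add, ha, hb]
        | inv a _ ha => rw [map_inv₀, ha]
        | mul a b _ _ ha hb => rw [map_mul, ha, hb]
      · intro h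
        rw [SetLike.mem_coe, IntermediateField.mem_fixingSubgroup_iff] at h
        exact h x (IntermediateField.mem_adjoin_simple_self ℚ x)
    rw [h2]
    have : FiniteDimensional ℚ (IntermediateField.adjoin ℚ {x}) :=
      IntermediateField.adjoin.finiteDimensional (Algebra.IsIntegral.isIntegral x)
    exact ⟨IntermediateField.fixingSubgroup_isClosed _, IntermediateField.fixingSubgroup_isOpen _⟩
  have h3 : Continuous fun σ : Ω ≃ₐ[ℚ] Ω => sgn x σ := by
    unfold sgn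
    refine Continuous.if ?_ continuous_const continuous_const
    intro σ hσ
    rw [h1.frontier_eq] at hσ
    exact absurd hσ (Set.notMem_empty _)
  exact h3.comp continuous_subtype_val

end

section sel

variable {Ω : Type} [Field Ω] [CharZero Ω] {H : Subgroup (Ω ≃ₐ[ℚ] Ω)} {ρ : H → ℤ_[2]}

/-- the module of the cocycles `InSel` -/
def Sel (ρ : H → ℤ_[2]) : Submodule ℤ_[2] (H → ℤ_[2]) where
  carrier := {f | InSel ρ f}
  zero_mem' := by
    refine ⟨⟨continuous_const, ?_⟩, ?_⟩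
    · intro σ τ
      simp
    · intro l _ j
      exact ⟨1, 0, one_ne_zero, fun σ _ => by simp⟩
  add_mem' := by
    intro f g hf hg
    refine ⟨⟨hf.coc.cont.add hg.coc.cont, ?_⟩, ?_⟩
    · intro σ τ
      simp only [Pi.add_apply]
      rw [hf.coc.coc, hg.coc.coc]
      ring
    · intro l _ j
      obtain ⟨n, b, hn, h⟩ := hf.tor l j
      obtain ⟨n', b', hn', h'⟩ := hg.tor l j
      refine ⟨n * n', n' * b + n * b', mul_ne_zero hn hn', ?_⟩
      intro σ hσ
      simp only [Pi.add_apply]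
      linear_combination n' * h σ hσ + n * h' σ hσ
  smul_mem' := by
    intro c f hf
    refine ⟨⟨continuous_const.mul hf.coc.cont, ?_⟩, ?_⟩
    · intro σ τ
      simp only [Pi.smul_apply, smul_eq_mul]
      rw [hf.coc.coc]
      ring
    · intro l _ j
      obtain ⟨n, b, hn, h⟩ := hf.tor l j
      refine ⟨n, c * b, hn, ?_⟩
      intro σ hσ
      simp only [Pi.smul_apply, smul_eq_mul]
      linear_combination c * h σ hσ

lemma mem_sel {f : H → ℤ_[2]} : f ∈ Sel ρ ↔ InSel ρ f := Iff.rfl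

lemma sel_sat {f : H → ℤ_[2]} (m : ℕ) (h : (2 : ℤ_[2]) ^ m • f ∈ Sel ρ) : f ∈ Sel ρ := by
  have h20 : ((2 : ℤ_[2]) ^ m) ≠ 0 := pow_ne_zero m two_ne_zero
  refine ⟨⟨cont_of_pow m h.coc.cont, ?_⟩, ?_⟩
  · intro σ τ
    have h1 := h.coc.coc σ τ
    simp only [Pi.smul_apply, smul_eq_mul] at h1
    apply mul_left_cancel₀ h20
    rw [h1]
    ring
  · intro l _ j
    obtain ⟨n, b, hn, h1⟩ := h.tor l j
    refine ⟨n * 2 ^ m, b, mul_ne_zero hn h20, ?_⟩
    intro σ hσ
    rw [← h1 σ hσ]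
    simp only [Pi.smul_apply, smul_eq_mul]
    ring

end sel

theorem cri (hCON : S_CON) (hSAT : S_SAT) (hKUM : S_KUM) : S_CRI := by
  classical
  intro Ω _ _ _ _ F _
  obtain ⟨e, he⟩ := hCON Ω F
  refine ⟨e, ?_⟩
  intro r d x t g hr hx hD hg hind
  obtain ⟨i, hi⟩ : ∃ i : Ω, i ^ 2 = -1 := IsAlgClosed.exists_pow_nat_eq (-1) (by norm_num)
  set D : F := (-1) ^ r * d with hDdef
  have hD0 : D ≠ 0 := by
    intro h
    rw [h] at hD
    exact hD ⟨0, by simp⟩
  have hd : d ≠ 0 := right_ne_zero_of_mul hD0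
  have hx0 : x ≠ 0 := by
    rintro rfl
    apply hd
    have h1 : (d : Ω) = 0 := by rw [← hx]; ring
    exact_mod_cast h1
  have hi0 : i ≠ 0 := by
    rintro rfl
    norm_num at hi
  have hz : (i ^ r * x) ^ 2 = (D : Ω) := z_sq hi hx r
  have hz0 : i ^ r * x ≠ 0 := mul_ne_zero (pow_ne_zero _ hi0) hx0
  set ρ : F.fixingSubgroup → ℤ_[2] := fun σ => chi σ.1 ^ r * sgn x σ.1 with hρ
  have hρm : ∀ σ τ, ρ (σ * τ) = ρ σ * ρ τ := fun σ τ => rho_mul σ.2 τ.2 hx hx0 r
  have hρc : Continuous ρ := ((chi_cont.comp continuous_subtype_val).pow r).mul (sgn_cont x)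
  have h2ρ : ∀ σ, ∃ c, ρ σ - 1 = 2 * c := fun σ => rho_two σ.2 hx r
  choose b0 hb0 using h2ρ
  have hb0z : ∀ σ : F.fixingSubgroup, (2 : ℤ_[2]) ∣ b0 σ ↔ σ.1 (i ^ r * x) = i ^ r * x := by
    intro σ
    rw [rho_iff hi σ.2 hx hx0 r]
    change _ ↔ (4 : ℤ_[2]) ∣ ρ σ - 1
    rw [hb0 σ]
    have e4 : (4 : ℤ_[2]) = 2 * 2 := by norm_num
    rw [e4]
    exact (mul_dvd_mul_iff_left two_ne_zero).symm
  have hodd : ∃ σ, ¬ (2 : ℤ_[2]) ∣ b0 σ := by
    by_contra hcon
    push Not at hcon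
    have h1 : i ^ r * x ∈ F := mem_of_fix fun σ hσ => (hb0z ⟨σ, hσ⟩).1 (hcon ⟨σ, hσ⟩)
    apply hD
    refine ⟨⟨i ^ r * x, h1⟩, ?_⟩
    apply Subtype.ext
    change (D : Ω) = (i ^ r * x) * (i ^ r * x)
    rw [← hz, pow_two]
  -- `b0` is in `Sel`
  have hρsel : (fun σ => ρ σ - 1) ∈ Sel ρ := by
    refine ⟨⟨hρc.sub continuous_const, ?_⟩, ?_⟩
    · intro σ τ
      rw [hρm]
      ring
    · intro l _ j
      exact ⟨1, 1, one_ne_zero, fun σ _ => by ring⟩
  have hb0sel : b0 ∈ Sel ρ := by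
    refine sel_sat 1 ?_
    have e1 : (2 : ℤ_[2]) ^ 1 • b0 = fun σ => ρ σ - 1 := by
      funext σ
      simp only [Pi.smul_apply, smul_eq_mul, pow_one]
      exact (hb0 σ).symm
    rw [e1]
    exact hρsel
  -- linear independence
  have hli : LinearIndependent ℤ_[2] (Fin.cons (α := fun _ => F.fixingSubgroup → ℤ_[2]) b0 g) := by
    rw [Fintype.linearIndependent_iff]
    intro c hc
    rw [Fin.sum_univ_succ] at hc
    simp only [Fin.cons_zero, Fin.cons_succ] at hc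
    have h1 : (fun k => 2 * c (Fin.succ k)) = (0 : Fin t → ℤ_[2]) := by
      refine hind (fun k => 2 * c (Fin.succ k)) ⟨- c 0, ?_⟩
      intro σ
      have h2 := congrFun hc σ
      simp only [Pi.add_apply, Pi.smul_apply, Finset.sum_apply, smul_eq_mul, Pi.zero_apply] at h2
      change ∑ k, 2 * c (Fin.succ k) * g k σ = (ρ σ - 1) * - c 0
      rw [hb0 σ]
      have h3 : ∑ k, 2 * c (Fin.succ k) * g k σ = 2 * ∑ k, c (Fin.succ k) * g k σ := by
        rw [Finset.mul_sum]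
        exact Finset.sum_congr rfl fun k _ => by ring
      rw [h3]
      linear_combination 2 * h2
    have h2 : ∀ k, c (Fin.succ k) = 0 := by
      intro k
      have h3 := congrFun h1 k
      simp only [Pi.zero_apply] at h3
      exact (mul_eq_zero.1 h3).resolve_left two_ne_zero
    have h3 : c 0 = 0 := by
      obtain ⟨σ, hσ⟩ := hodd
      have h4 := congrFun hc σ
      simp only [Pi.add_apply, Pi.smul_apply, Finset.sum_apply, smul_eq_mul, Pi.zero_apply, h2,
        zero_mul, Finset.sum_const_zero, add_zero] at h4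
      refine (mul_eq_zero.1 h4).resolve_right ?_
      intro h5
      rw [h5] at hσ
      exact hσ (dvd_zero _)
    intro k
    refine Fin.cases h3 h2 k
  obtain ⟨b, m, hb1, hb2⟩ := hSAT F.fixingSubgroup t b0 g hli hodd
  have hbsel : ∀ j, b j ∈ Sel ρ := by
    intro j
    refine sel_sat m ?_
    refine (Submodule.span_le.2 ?_) (hb1 j)
    intro f hf
    rcases hf with rfl | ⟨k, rfl⟩
    · exact hb0sel
    · exact hg k
  -- the elements `a c`
  have hfc : ∀ c : Fin t → ZMod 2, ∃ (a : F) (y : Ω), a ≠ 0 ∧ y ^ 2 = (a : Ω) ∧ Cond (AE e) D a ∧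
      ∀ σ : F.fixingSubgroup, (2 : ℤ_[2]) ∣ ∑ j, ((c j).val : ℤ_[2]) * b j σ ↔ σ.1 y = y := by
    intro c
    have h1 : (∑ j, ((c j).val : ℤ_[2]) • b j) ∈ Sel ρ :=
      Submodule.sum_mem _ fun j _ => Submodule.smul_mem _ _ (hbsel j)
    have e1 : (∑ j, ((c j).val : ℤ_[2]) • b j) = fun σ => ∑ j, ((c j).val : ℤ_[2]) * b j σ := by
      funext σ
      simp only [Finset.sum_apply, Pi.smul_apply, smul_eq_mul]
    rw [e1] at h1
    have h2 : InSel ρ (fun σ => ∑ j, ((c j).val : ℤ_[2]) * b j σ) := h1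
    obtain ⟨a, y, ha, hy, hay⟩ := hKUM Ω F (fun σ => ∑ j, ((c j).val : ℤ_[2]) * b j σ) h2.coc.cont (by
      intro σ τ
      rw [h2.coc.coc σ τ]
      refine ⟨b0 σ * ∑ j, ((c j).val : ℤ_[2]) * b j τ, ?_⟩
      linear_combination (∑ j, ((c j).val : ℤ_[2]) * b j τ) * hb0 σ)
    exact ⟨a, y, ha, hy, he r d x hr hd hx _ h2 a y ha hy hay, hay⟩
  choose a y ha hy hcond hay using hfc
  have hy0 : ∀ c, y c ≠ 0 := by
    intro c h
    apply ha c
    have h1 := hy c
    rw [h] at h1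
    have h2 : ((a c : F) : Ω) = 0 := by rw [← h1]; ring
    exact_mod_cast h2
  have hval : ∀ u w : ZMod 2, (2 : ℤ_[2]) ∣ ((u + w).val : ℤ_[2]) - ((u.val : ℤ_[2]) + (w.val : ℤ_[2])) := by
    intro u w
    have h1 : ((u + w).val = u.val + w.val) ∨ ((u + w).val + 2 = u.val + w.val) := by
      revert u w
      decide
    rcases h1 with h1 | h1
    · rw [h1]
      push_cast
      simp
    · have h2 : ((u + w).val : ℤ_[2]) + 2 = (u.val : ℤ_[2]) + (w.val : ℤ_[2]) := by exact_mod_cast h1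
      rw [← h2]
      exact ⟨-1, by ring⟩
  have hsum : ∀ (c c' : Fin t → ZMod 2) (σ : F.fixingSubgroup),
      (2 : ℤ_[2]) ∣ ∑ j, (((c + c') j).val : ℤ_[2]) * b j σ ↔
      (2 : ℤ_[2]) ∣ (∑ j, ((c j).val : ℤ_[2]) * b j σ) + ∑ j, ((c' j).val : ℤ_[2]) * b j σ := by
    intro c c' σ
    refine dvd_iff_dvd_of_dvd_sub ?_
    rw [← Finset.sum_add_distrib, ← Finset.sum_sub_distrib]
    refine Finset.dvd_sum fun j _ => ?_
    have e1 : (((c + c') j).val : ℤ_[2]) * b j σ - (((c j).val : ℤ_[2]) * b j σ + ((c' j).val : ℤ_[2]) * b j σ) =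
        ((((c + c') j).val : ℤ_[2]) - (((c j).val : ℤ_[2]) + ((c' j).val : ℤ_[2]))) * b j σ := by ring
    rw [e1]
    exact Dvd.dvd.mul_right (hval _ _) _
  -- parity arguments
  have par1 : ∀ c : Fin t → ZMod 2, (∀ σ : F.fixingSubgroup, (2 : ℤ_[2]) ∣ ∑ j, ((c j).val : ℤ_[2]) * b j σ) → c = 0 := by
    intro c hc
    refine (hb2 0 c ?_).2
    intro σ
    simpa using hc σ
  have par2 : ∀ c : Fin t → ZMod 2, ¬ (∀ σ : F.fixingSubgroup, (2 : ℤ_[2]) ∣ (∑ j, ((c j).val : ℤ_[2]) * b j σ) + b0 σ) := by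
    intro c hc
    have h1 := (hb2 1 c (by
      intro σ
      have e1 : ((1 : ZMod 2).val : ℤ_[2]) = 1 := by
        have : (1 : ZMod 2).val = 1 := rfl
        rw [this]
        simp
      rw [e1, one_mul, add_comm]
      exact hc σ)).1
    exact absurd h1 (by decide)
  -- the index
  have hcard : Fintype.card {c : Fin t → ZMod 2 // c ≠ 0} = 2 ^ t - 1 := by
    have h1 := Fintype.card_subtype_compl (fun c : Fin t → ZMod 2 => c = 0)
    rw [Fintype.card_subtype_eq] at h1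
    rw [h1, Fintype.card_fun, ZMod.card, Fintype.card_fin]
  let E : Fin (2 ^ t - 1) ≃ {c : Fin t → ZMod 2 // c ≠ 0} := (Fintype.equivFinOfCardEq hcard).symm
  refine ⟨fun n => a (E n).1, ?_, ?_⟩
  · intro n
    refine ⟨hcond _, ?_, ?_⟩
    · intro hsq
      refine (E n).2 (par1 _ fun σ => ?_)
      rw [hay]
      exact fix_of_isSquare σ.2 (hy _) hsq
    · intro hsq
      refine par2 (E n).1 fun σ => ?_
      rw [par_mul σ.2 (hy _) hz (hy0 _) hz0 (hay _ σ) (hb0z σ)]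
      refine fix_of_isSquare σ.2 ?_ hsq
      rw [mul_pow, hy, hz]
      push_cast
      rfl
  · intro n n' hn
    have hne : (E n).1 + (E n').1 ≠ 0 := by
      intro h
      apply hn
      apply E.injective
      apply Subtype.ext
      have h1 : ∀ u w : ZMod 2, u + w = 0 → u = w := by decide
      funext k
      exact h1 _ _ (congrFun h k)
    have hyy : (y (E n).1 * y (E n').1) ^ 2 = ((a (E n).1 * a (E n').1 : F) : Ω) := by
      rw [mul_pow, hy, hy]
      push_cast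
      rfl
    have hpar : ∀ σ : F.fixingSubgroup, (2 : ℤ_[2]) ∣ ∑ j, ((((E n).1 + (E n').1) j).val : ℤ_[2]) * b j σ ↔
        σ.1 (y (E n).1 * y (E n').1) = y (E n).1 * y (E n').1 := by
      intro σ
      rw [hsum]
      exact par_mul σ.2 (hy _) (hy _) (hy0 _) (hy0 _) (hay _ σ) (hay _ σ)
    refine ⟨?_, ?_⟩
    · intro hsq
      refine hne (par1 _ fun σ => ?_)
      rw [hpar]
      exact fix_of_isSquare σ.2 hyy hsq
    · intro hsq
      refine par2 ((E n).1 + (E n').1) fun σ => ?_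
      rw [par_mul σ.2 hyy hz (mul_ne_zero (hy0 _) (hy0 _)) hz0 (hpar σ) (hb0z σ)]
      refine fix_of_isSquare σ.2 ?_ hsq
      rw [mul_pow, hyy, hz]
      push_cast
      rfl

end Pool.Agent.Q241.LS
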