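import Pool.Agent.Q283.LS.Stm

/-! # Project LS (helper283): elementary properties of the characters `chi` and `sgn` -/

set_option autoImplicit false

namespace Pool.Agent.Q241.LS

open NumberField IsDedekindDomain Filter Topology Finset Pool.Agent.Q283.LQ Pool.Agent.Q283.LS

section chi

variable {Ω : Type} [Field Ω] [CharZero Ω]

lemma chi_mul (σ τ : Ω ≃ₐ[ℚ] Ω) : chi (σ * τ) = chi σ * chi τ := by
  unfold chi
  have h : ((σ * τ : Ω ≃ₐ[ℚ] Ω) : Ω ≃+* Ω) = (σ : Ω ≃+* Ω) * (τ : Ω ≃+* Ω) := rfl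
  rw [h, map_mul, Units.val_mul]

lemma chi_one : chi (1 : Ω ≃ₐ[ℚ] Ω) = 1 := by
  unfold chi
  have h : ((1 : Ω ≃ₐ[ℚ] Ω) : Ω ≃+* Ω) = 1 := rfl
  rw [h, map_one, Units.val_one]

lemma isUnit_chi (σ : Ω ≃ₐ[ℚ] Ω) : IsUnit (chi σ) := Units.isUnit _

lemma chi_cont : Continuous (chi : (Ω ≃ₐ[ℚ] Ω) → ℤ_[2]) := by
  have h := cyclotomicCharacter.continuous 2 ℚ Ω
  exact Units.continuous_val.comp h

lemma chi_i [IsAlgClosed Ω] {i : Ω} (hi : i ^ 2 = -1) (σ : Ω ≃ₐ[ℚ] Ω) :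
    ∃ c : ℤ, (c = 1 ∨ c = -1) ∧ σ i = (c : Ω) * i ∧ (4 : ℤ_[2]) ∣ chi σ - (c : ℤ_[2]) := by
  have h4 : i ^ 2 ^ 2 = 1 := by
    have : i ^ 2 ^ 2 = (i ^ 2) ^ 2 := by ring
    rw [this, hi]; ring
  have hs := cyclotomicCharacter.spec (L := Ω) 2 (n := 2) (σ : Ω ≃+* Ω) i h4
  have hs' : σ i = i ^ ((PadicInt.toZModPow 2 (chi σ)).val) := hs
  have hker : ∀ x : ℤ_[2], PadicInt.toZModPow 2 x = 0 → (4 : ℤ_[2]) ∣ x := by
    intro x hx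
    have h1 : x ∈ RingHom.ker (PadicInt.toZModPow (p := 2) 2) := hx
    rw [PadicInt.ker_toZModPow, Ideal.mem_span_singleton] at h1
    have e : ((2 : ℕ) : ℤ_[2]) ^ 2 = 4 := by norm_num
    rwa [e] at h1
  have hu : IsUnit (PadicInt.toZModPow 2 (chi σ)) := (isUnit_chi σ).map _
  generalize hc : PadicInt.toZModPow 2 (chi σ) = c at hs' hu
  have hc4 : c = 1 ∨ c = 3 := by
    change ZMod 4 at c
    revert hu
    clear hc hs'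
    revert c
    decide
  rcases hc4 with h | h
  · refine ⟨1, Or.inl rfl, ?_, ?_⟩
    · rw [hs', h]
      have : ((1 : ZMod (2 ^ 2))).val = 1 := rfl
      rw [this]
      simp
    · refine hker _ ?_
      rw [map_sub, hc, h]
      simp
  · refine ⟨-1, Or.inr rfl, ?_, ?_⟩
    · rw [hs', h]
      have : ((3 : ZMod (2 ^ 2))).val = 3 := rfl
      rw [this]
      have e : i ^ 3 = i ^ 2 * i := by ring
      rw [e, hi]
      simp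
    · refine hker _ ?_
      rw [map_sub, hc, h]
      have e : ((-1 : ℤ) : ℤ_[2]) = -1 := by norm_num
      rw [e, map_neg, map_one]
      decide

end chi

section sgn

variable {Ω : Type} [Field Ω] [CharZero Ω] {F : IntermediateField ℚ Ω}

lemma fix_eq {σ : Ω ≃ₐ[ℚ] Ω} (hσ : σ ∈ F.fixingSubgroup) (a : F) : σ (a : Ω) = a := by
  rw [IntermediateField.mem_fixingSubgroup_iff] at hσ
  exact hσ _ a.2

lemma pm_sqrt {σ : Ω ≃ₐ[ℚ] Ω} (hσ : σ ∈ F.fixingSubgroup) {a : F} {y : Ω} (hy : y ^ 2 = (a : Ω)) :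
    σ y = y ∨ σ y = -y := by
  have h : (σ y) ^ 2 = y ^ 2 := by
    rw [← map_pow, hy, fix_eq hσ]
  exact sq_eq_sq_iff_eq_or_eq_neg.1 h

lemma sgn_spec {σ : Ω ≃ₐ[ℚ] Ω} (hσ : σ ∈ F.fixingSubgroup) {d : F} {x : Ω} (hx : x ^ 2 = (d : Ω)) :
    ∃ c : ℤ, (c = 1 ∨ c = -1) ∧ σ x = (c : Ω) * x ∧ sgn x σ = (c : ℤ_[2]) := by
  unfold sgn
  by_cases h : σ x = x
  · exact ⟨1, Or.inl rfl, by simp [h], by simp [h]⟩
  · refine ⟨-1, Or.inr rfl, ?_, by simp [h]⟩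
    rw [(pm_sqrt hσ hx).resolve_left h]
    simp

lemma sgn_mul {σ τ : Ω ≃ₐ[ℚ] Ω} (hσ : σ ∈ F.fixingSubgroup) (hτ : τ ∈ F.fixingSubgroup) {d : F} {x : Ω}
    (hx : x ^ 2 = (d : Ω)) (hx0 : x ≠ 0) : sgn x (σ * τ) = sgn x σ * sgn x τ := by
  have hn : -x ≠ x := by
    intro h
    exact hx0 (self_eq_neg.1 h.symm)
  unfold sgn
  rw [AlgEquiv.mul_apply]
  rcases pm_sqrt hσ hx with h1 | h1 <;> rcases pm_sqrt hτ hx with h2 | h2 <;> simp [h1, h2, hn]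

lemma sgn_one (x : Ω) : sgn x (1 : Ω ≃ₐ[ℚ] Ω) = 1 := by
  unfold sgn
  simp

end sgn

section rho

variable {Ω : Type} [Field Ω] [CharZero Ω] {F : IntermediateField ℚ Ω}

lemma not4 : ¬ (4 : ℤ_[2]) ∣ 2 := by
  rintro ⟨c, hc⟩
  have h2 : (2 : ℤ_[2]) ≠ 0 := two_ne_zero
  have h1 : (2 : ℤ_[2]) * 1 = 2 * (2 * c) := by linear_combination hc
  have h3 : (1 : ℤ_[2]) = 2 * c := mul_left_cancel₀ h2 h1
  have h4 : IsUnit (2 : ℤ_[2]) := IsUnit.of_mul_eq_one c h3.symm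
  have h5 := PadicInt.prime_p (p := 2)
  exact h5.not_isUnit (by exact_mod_cast h4)

lemma pow_pm {c : ℤ} (hc : c = 1 ∨ c = -1) (r : ℕ) : c ^ r = 1 ∨ c ^ r = -1 := by
  rcases hc with rfl | rfl
  · simp
  · exact neg_one_pow_eq_or ℤ r

lemma mul_pm {c e : ℤ} (hc : c = 1 ∨ c = -1) (he : e = 1 ∨ e = -1) : c * e = 1 ∨ c * e = -1 := by
  rcases hc with rfl | rfl <;> rcases he with rfl | rfl <;> simp

/-- the value of the character `chi ^ r * sgn x` modulo `4` and its action on `z = i ^ r x` -/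
lemma rho_spec [IsAlgClosed Ω] {i : Ω} (hi : i ^ 2 = -1) {σ : Ω ≃ₐ[ℚ] Ω} (hσ : σ ∈ F.fixingSubgroup) {d : F}
    {x : Ω} (hx : x ^ 2 = (d : Ω)) (r : ℕ) :
    ∃ w : ℤ, (w = 1 ∨ w = -1) ∧ σ (i ^ r * x) = (w : Ω) * (i ^ r * x) ∧
      (4 : ℤ_[2]) ∣ chi σ ^ r * sgn x σ - (w : ℤ_[2]) := by
  obtain ⟨c, hc, hc1, hc2⟩ := chi_i hi σ
  obtain ⟨s, hs, hs1, hs2⟩ := sgn_spec hσ hx
  refine ⟨c ^ r * s, mul_pm (pow_pm hc r) hs, ?_, ?_⟩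
  · rw [map_mul, map_pow, hc1, hs1]
    push_cast
    ring
  · rw [hs2]
    push_cast
    rw [← sub_mul]
    exact Dvd.dvd.mul_right (hc2.trans (sub_dvd_pow_sub_pow _ _ _)) _

lemma rho_iff [IsAlgClosed Ω] {i : Ω} (hi : i ^ 2 = -1) {σ : Ω ≃ₐ[ℚ] Ω} (hσ : σ ∈ F.fixingSubgroup) {d : F}
    {x : Ω} (hx : x ^ 2 = (d : Ω)) (hx0 : x ≠ 0) (r : ℕ) :
    σ (i ^ r * x) = i ^ r * x ↔ (4 : ℤ_[2]) ∣ chi σ ^ r * sgn x σ - 1 := by
  obtain ⟨w, hw, h1, h2⟩ := rho_spec hi hσ hx r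
  have hi0 : i ≠ 0 := by
    rintro rfl
    norm_num at hi
  have hz : i ^ r * x ≠ 0 := mul_ne_zero (pow_ne_zero _ hi0) hx0
  rcases hw with rfl | rfl
  · constructor
    · intro _
      simpa using h2
    · intro _
      simpa using h1
  · constructor
    · intro h
      exfalso
      rw [h] at h1
      have h3 : i ^ r * x = -(i ^ r * x) := by
        conv_lhs => rw [h1]
        simp
      exact hz (self_eq_neg.1 h3)
    · intro h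
      exfalso
      have e : (2 : ℤ_[2]) = (chi σ ^ r * sgn x σ - ((-1 : ℤ) : ℤ_[2])) - (chi σ ^ r * sgn x σ - 1) := by
        push_cast
        ring
      exact not4 (e ▸ dvd_sub h2 h)

lemma rho_two [IsAlgClosed Ω] {σ : Ω ≃ₐ[ℚ] Ω} (hσ : σ ∈ F.fixingSubgroup) {d : F}
    {x : Ω} (hx : x ^ 2 = (d : Ω)) (r : ℕ) : (2 : ℤ_[2]) ∣ chi σ ^ r * sgn x σ - 1 := by
  obtain ⟨i, hi⟩ : ∃ i : Ω, i ^ 2 = -1 := IsAlgClosed.exists_pow_nat_eq (-1) (by norm_num)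
  obtain ⟨w, hw, h1, h2⟩ := rho_spec hi hσ hx r
  have h3 : (2 : ℤ_[2]) ∣ chi σ ^ r * sgn x σ - (w : ℤ_[2]) := by
    refine Dvd.dvd.trans ⟨2, by norm_num⟩ h2
  have h4 : (2 : ℤ_[2]) ∣ (w : ℤ_[2]) - 1 := by
    rcases hw with rfl | rfl
    · simp
    · exact ⟨-1, by push_cast; ring⟩
  have := dvd_add h3 h4
  simpa using this

lemma rho_mul {σ τ : Ω ≃ₐ[ℚ] Ω} (hσ : σ ∈ F.fixingSubgroup) (hτ : τ ∈ F.fixingSubgroup) {d : F} {x : Ω}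
    (hx : x ^ 2 = (d : Ω)) (hx0 : x ≠ 0) (r : ℕ) :
    chi (σ * τ) ^ r * sgn x (σ * τ) = (chi σ ^ r * sgn x σ) * (chi τ ^ r * sgn x τ) := by
  rw [chi_mul, sgn_mul hσ hτ hx hx0]
  ring

lemma rho_one (x : Ω) (r : ℕ) : chi (1 : Ω ≃ₐ[ℚ] Ω) ^ r * sgn x (1 : Ω ≃ₐ[ℚ] Ω) = 1 := by
  rw [chi_one, sgn_one]
  simp

lemma z_sq {i : Ω} (hi : i ^ 2 = -1) {d : F} {x : Ω} (hx : x ^ 2 = (d : Ω)) (r : ℕ) :
    (i ^ r * x) ^ 2 = (((-1) ^ r * d : F) : Ω) := by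
  rw [mul_pow, hx, ← pow_mul, mul_comm r 2, pow_mul, hi]
  push_cast
  ring

end rho

end Pool.Agent.Q241.LS
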