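import Pool.Agent.Q283.LS.Stm
import Pool.Agent.Q283.LQ.Stm

/-! # Project LS (helper283), job LOE: the conditions `AE e` have the properties of `Loc` -/

set_option autoImplicit false

namespace Pool.Agent.Q241.LS

open NumberField IsDedekindDomain Filter Topology Finset Pool.Agent.Q283.LQ Pool.Agent.Q283.LS

section

variable {F : Type} [Field F] [NumberField F] {v : HeightOneSpectrum (𝓞 F)}

lemma lsq_mul (hB : S_BAS) {a b : F} (ha : Lsq v a) (hb : Lsq v b) : Lsq v (a * b) := (hB F v).2.1 a b ha hb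

lemma lsq_sq (hB : S_BAS) {a : F} (ha : a ≠ 0) : Lsq v (a ^ 2) := (hB F v).2.2.1 a ha

lemma lsq_ne (hB : S_BAS) {a : F} (ha : Lsq v a) : a ≠ 0 := ((hB F v).1 a ha).1

lemma lsq_cancel (hB : S_BAS) {a b : F} (hb : b ≠ 0) (h : Lsq v (a * b ^ 2)) : Lsq v a := by
  have h1 := lsq_mul hB h (lsq_sq (v := v) hB (inv_ne_zero hb))
  have e : a * b ^ 2 * b⁻¹ ^ 2 = a := by
    rw [mul_assoc, ← mul_pow, mul_inv_cancel₀ hb, one_pow, mul_one]
  rwa [e] at h1

lemma lsq_pair (hB : S_BAS) {a b c : F} (h1 : Lsq v (a * c)) (h2 : Lsq v (b * c)) : Lsq v (a * b) := by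
  have hc : c ≠ 0 := right_ne_zero_of_mul (lsq_ne hB h1)
  have h3 := lsq_mul hB h1 h2
  have e : a * c * (b * c) = a * b * c ^ 2 := by ring
  rw [e] at h3
  exact lsq_cancel hB hc h3

end

theorem loe (hBAS : S_BAS) : S_LOE := by
  intro F _ _ e
  have hnum : ∀ (v : HeightOneSpectrum (𝓞 F)) (c : F) (B : Finset F), (∀ b ∈ B, Lsq v b ∨ Lsq v (b * c)) →
      (∀ b ∈ B, ∀ b' ∈ B, b ≠ b' → ¬ Lsq v (b * b')) → B.card ≤ 2 := by
    classical
    intro v c B hB hB2
    have h1 : B.card ≤ (univ : Finset Bool).card := by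
      refine card_le_card_of_injOn (fun b => decide (Lsq v b)) (fun _ _ => mem_coe.2 (mem_univ _)) ?_
      intro b hb b' hb' hbb
      by_contra hne
      have hbb' : Lsq v b ↔ Lsq v b' := by
        simpa using hbb
      refine hB2 b hb b' hb' hne ?_
      by_cases h : Lsq v b
      · exact lsq_mul hBAS h (hbb'.1 h)
      · exact lsq_pair hBAS ((hB b hb).resolve_left h) ((hB b' hb').resolve_left fun h' => h (hbb'.2 h'))
    simpa using h1
  refine ⟨?_, ?_, ?_, ?_, ?_, ?_⟩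
  · intro v D a _ _ h
    exact h.1
  · rintro v D a b _ hD ⟨h0, h⟩ hb
    refine ⟨mul_ne_zero h0 (lsq_ne hBAS hb), ?_⟩
    rcases h with h | h | ⟨h, h'⟩
    · exact Or.inl (lsq_mul hBAS h hb)
    · refine Or.inr (Or.inl ?_)
      rw [mul_right_comm]
      exact lsq_mul hBAS h hb
    · refine Or.inr (Or.inr ⟨h, ?_⟩)
      rw [mul_right_comm]
      exact lsq_mul hBAS h' hb
  · rintro v D n a _ hD hn ⟨h0, h⟩
    refine ⟨h0, ?_⟩
    rcases h with h | h | ⟨h, h'⟩
    · exact Or.inl h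
    · refine Or.inr (Or.inl ?_)
      rw [← mul_assoc]
      exact lsq_mul hBAS h hn
    · exact Or.inr (Or.inr ⟨lsq_mul hBAS h hn, h'⟩)
  · rintro v D a _ hD ⟨h0, h⟩
    refine ⟨mul_ne_zero h0 hD, ?_⟩
    rcases h with h | h | ⟨h, h'⟩
    · refine Or.inr (Or.inl ?_)
      rw [mul_assoc, ← pow_two]
      exact lsq_mul hBAS h (lsq_sq hBAS hD)
    · exact Or.inl h
    · refine Or.inr (Or.inr ⟨h, ?_⟩)
      rw [mul_right_comm]
      exact lsq_mul hBAS h' h
  · intro v D _ hD B hB hB2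
    by_cases hLD : Lsq v D
    · refine hnum v (e v) B (fun b hb => ?_) hB2
      rcases (hB b hb).2 with h | h | ⟨_, h⟩
      · exact Or.inl h
      · left
        have h1 := lsq_mul hBAS h hLD
        rw [mul_assoc, ← pow_two] at h1
        exact lsq_cancel hBAS hD h1
      · exact Or.inr h
    · refine hnum v D B (fun b hb => ?_) hB2
      rcases (hB b hb).2 with h | h | ⟨h, _⟩
      · exact Or.inl h
      · exact Or.inr h
      · exact absurd h hLD
  · intro v _
    rfl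

end Pool.Agent.Q241.LS
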