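import Pool.Agent.Q283.LS.Stm
import Pool.Agent.Q283.LQ.Stm
import Pool.Agent.Q241.LS.LOE
import Pool.Agent.Q241.LS.Chr

/-! # Project LS (helper283), job CON: the local conditions -/

set_option autoImplicit false

namespace Pool.Agent.Q241.LS

open NumberField IsDedekindDomain Filter Topology Finset Pool.Agent.Q283.LQ Pool.Agent.Q283.LS

section padic

lemma not_unit_two : ¬ IsUnit (2 : ℤ_[2]) := by
  intro h
  exact (PadicInt.prime_p (p := 2)).not_isUnit (by exact_mod_cast h)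

lemma exists_unit_pow {n : ℤ_[2]} (hn : n ≠ 0) : ∃ (k : ℕ) (u : ℤ_[2]), IsUnit u ∧ n = u * 2 ^ k := by
  refine ⟨n.valuation, PadicInt.unitCoeff hn, Units.isUnit _, ?_⟩
  have := PadicInt.unitCoeff_spec hn
  exact_mod_cast this

lemma two_dvd_or_unit (x : ℤ_[2]) : (2 : ℤ_[2]) ∣ x ∨ IsUnit x := by
  by_cases hx : x = 0
  · left
    rw [hx]
    exact dvd_zero _
  · obtain ⟨k, u, hu, h⟩ := exists_unit_pow hx
    rcases Nat.eq_zero_or_pos k with rfl | hk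
    · right
      rw [h, pow_zero, mul_one]
      exact hu
    · left
      rw [h]
      exact Dvd.dvd.mul_left (dvd_pow_self _ hk.ne') _

lemma two_dvd_mul_unit {x u : ℤ_[2]} (hu : IsUnit u) : (2 : ℤ_[2]) ∣ x * u ↔ (2 : ℤ_[2]) ∣ x :=
  hu.dvd_mul_right

lemma pow_dvd_unit {x u : ℤ_[2]} (hu : IsUnit u) (n : ℕ) : (2 : ℤ_[2]) ^ n ∣ x * u ↔ (2 : ℤ_[2]) ^ n ∣ x :=
  hu.dvd_mul_right

/-- lifting the exponent: odd exponents -/
lemma lte_odd {ψ : ℤ_[2]} (h : (4 : ℤ_[2]) ∣ ψ - 1) {r : ℕ} (hr : Odd r) :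
    ∃ u : ℤ_[2], IsUnit u ∧ ψ ^ r - 1 = (ψ - 1) * u := by
  refine ⟨∑ i ∈ range r, ψ ^ i, ?_, ?_⟩
  · rcases two_dvd_or_unit (∑ i ∈ range r, ψ ^ i) with h1 | h1
    · exfalso
      have h2 : (2 : ℤ_[2]) ∣ ∑ i ∈ range r, (ψ ^ i - 1) := by
        refine Finset.dvd_sum fun i _ => ?_
        refine Dvd.dvd.trans (Dvd.dvd.trans ⟨2, by norm_num⟩ h) ?_
        simpa using sub_dvd_pow_sub_pow ψ 1 i
      rw [Finset.sum_sub_distrib] at h2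
      have h3 := dvd_sub h1 h2
      simp only [sub_sub_cancel, sum_const, card_range, nsmul_eq_mul, mul_one] at h3
      obtain ⟨k, rfl⟩ := hr
      have h4 : (2 : ℤ_[2]) ∣ 1 := by
        have e : (1 : ℤ_[2]) = ((2 * k + 1 : ℕ) : ℤ_[2]) - 2 * k := by push_cast; ring
        rw [e]
        exact dvd_sub h3 (dvd_mul_right _ _)
      exact not_unit_two (isUnit_of_dvd_one h4)
    · exact h1
  · exact (mul_geom_sum ψ r).symm

lemma lte_two {ψ : ℤ_[2]} (h : (4 : ℤ_[2]) ∣ ψ - 1) :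
    ∃ u : ℤ_[2], IsUnit u ∧ ψ ^ 2 - 1 = (ψ - 1) * 2 * u ∧ (4 : ℤ_[2]) ∣ ψ ^ 2 - 1 := by
  obtain ⟨c, hc⟩ := h
  have hψ : ψ = 1 + 4 * c := by linear_combination hc
  refine ⟨1 + 2 * c, ?_, ?_, ?_⟩
  · rcases two_dvd_or_unit (1 + 2 * c) with h1 | h1
    · exfalso
      have h4 : (2 : ℤ_[2]) ∣ 1 := by
        have e : (1 : ℤ_[2]) = (1 + 2 * c) - 2 * c := by ring
        rw [e]
        exact dvd_sub h1 (dvd_mul_right _ _)
      exact not_unit_two (isUnit_of_dvd_one h4)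
    · exact h1
  · rw [hψ]; ring
  · rw [hψ]
    exact ⟨2 * c + 4 * c ^ 2, by ring⟩

lemma lte_pow {ψ : ℤ_[2]} (h : (4 : ℤ_[2]) ∣ ψ - 1) (k : ℕ) :
    ∃ u : ℤ_[2], IsUnit u ∧ ψ ^ 2 ^ k - 1 = (ψ - 1) * 2 ^ k * u ∧ (4 : ℤ_[2]) ∣ ψ ^ 2 ^ k - 1 := by
  induction k with
  | zero => exact ⟨1, isUnit_one, by simp, by simpa using h⟩
  | succ k ih =>
    obtain ⟨u, hu, h1, h2⟩ := ih
    obtain ⟨w, hw, h3, h4⟩ := lte_two h2
    rw [← pow_mul, ← pow_succ] at h3 h4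
    refine ⟨u * w, hu.mul hw, ?_, h4⟩
    rw [h3, h1]
    ring

/-- lifting the exponent -/
lemma lte {ψ : ℤ_[2]} (h : (4 : ℤ_[2]) ∣ ψ - 1) {r k r' : ℕ} (hr : r = 2 ^ k * r') (hr' : Odd r') (n : ℕ) :
    (2 : ℤ_[2]) ^ n ∣ ψ ^ r - 1 ↔ (2 : ℤ_[2]) ^ n ∣ (ψ - 1) * 2 ^ k := by
  obtain ⟨u, hu, h1, h2⟩ := lte_pow h k
  obtain ⟨w, hw, h3⟩ := lte_odd h2 hr'
  rw [hr, pow_mul, h3, h1, mul_assoc, pow_dvd_unit (hu.mul hw)]

/-- the two cases of a cocycle which is torsion on a subgroup -/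
lemma two_cases {H : Type} {P : H → Prop} {ρ f : H → ℤ_[2]} {n b : ℤ_[2]} (hn : n ≠ 0)
    (h : ∀ σ, P σ → n * f σ = (ρ σ - 1) * b) (hρ : ∀ σ, P σ → (2 : ℤ_[2]) ∣ ρ σ - 1) :
    (∀ σ, P σ → (2 : ℤ_[2]) ∣ f σ) ∨ ∃ h0 : ℕ, 1 ≤ h0 ∧ ∀ σ, P σ → (2 : ℤ_[2]) ^ h0 ∣ ρ σ - 1 ∧
      ((2 : ℤ_[2]) ∣ f σ ↔ (2 : ℤ_[2]) ^ (h0 + 1) ∣ ρ σ - 1) := by
  by_cases hb : b = 0
  · left
    intro σ hσ
    have h1 := h σ hσ
    rw [hb, mul_zero] at h1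
    rw [(mul_eq_zero.1 h1).resolve_left hn]
    exact dvd_zero _
  · obtain ⟨k, u, hu, hk⟩ := exists_unit_pow hn
    obtain ⟨k', u', hu', hk'⟩ := exists_unit_pow hb
    have h20 : (2 : ℤ_[2]) ≠ 0 := two_ne_zero
    by_cases hkk : k ≤ k'
    · left
      intro σ hσ
      obtain ⟨m, rfl⟩ := Nat.exists_eq_add_of_le hkk
      have h1 := h σ hσ
      rw [hk, hk'] at h1
      have h2 : (2 : ℤ_[2]) ^ k * (f σ * u) = 2 ^ k * ((ρ σ - 1) * (u' * 2 ^ m)) := by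
        linear_combination h1
      have h3 := mul_left_cancel₀ (pow_ne_zero k h20) h2
      rw [← two_dvd_mul_unit hu, h3]
      exact Dvd.dvd.mul_right (hρ σ hσ) _
    · right
      obtain ⟨m, rfl⟩ := Nat.exists_eq_add_of_le (not_le.1 hkk).le
      refine ⟨m, by omega, ?_⟩
      intro σ hσ
      have h1 := h σ hσ
      rw [hk, hk'] at h1
      have h2 : (2 : ℤ_[2]) ^ k' * (2 ^ m * f σ * u) = 2 ^ k' * ((ρ σ - 1) * u') := by
        linear_combination h1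
      have h3 := mul_left_cancel₀ (pow_ne_zero k' h20) h2
      constructor
      · rw [← pow_dvd_unit hu', ← h3, mul_assoc]
        exact dvd_mul_right _ _
      · rw [← pow_dvd_unit hu', ← h3, pow_dvd_unit hu, pow_succ]
        exact (mul_dvd_mul_iff_left (pow_ne_zero m h20)).symm

end padic

section loc

variable {Ω : Type} [Field Ω] [CharZero Ω] [IsAlgClosed Ω] [Algebra.IsAlgebraic ℚ Ω]
  {F : IntermediateField ℚ Ω} [NumberField F]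

/-- the decomposition groups -/
lemma places (hPLC : S_PLC) (hUNR : S_UNR) : ∃ P : HeightOneSpectrum (𝓞 F) → (Ω ≃ₐ[ℚ] Ω) → Prop,
    (∀ v (a : F) (y : Ω), a ≠ 0 → y ^ 2 = (a : Ω) → (∀ σ ∈ F.fixingSubgroup, P v σ → σ y = y) → Lsq v a) ∧
    (∀ v, ¬ Dy v → ∀ (a D : F) (y z : Ω) (N : ℕ), a ≠ 0 → D ≠ 0 → Od v a → ¬ Od v D → y ^ 2 = (a : Ω) →
      z ^ 2 = (D : Ω) →
      ∃ σ ∈ F.fixingSubgroup, P v σ ∧ (2 : ℤ_[2]) ^ N ∣ chi σ - 1 ∧ σ z = z ∧ σ y ≠ y) ∧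
    (∀ v (ρ f : F.fixingSubgroup → ℤ_[2]), InSel ρ f → ∃ n b : ℤ_[2], n ≠ 0 ∧
      ∀ σ : F.fixingSubgroup, P v σ.1 → n * f σ = (ρ σ - 1) * b) := by
  have hp : ∀ v : HeightOneSpectrum (𝓞 F), ∃ l : ℕ, l.Prime ∧ (l : 𝓞 F) ∈ v.asIdeal := by
    intro v
    have hP : v.asIdeal.IsMaximal := v.isMaximal
    have hne : v.asIdeal ≠ ⊥ := v.ne_bot
    let _ := Ideal.Quotient.field v.asIdeal
    have : Finite (𝓞 F ⧸ v.asIdeal) := Ideal.finiteQuotientOfFreeOfNeBot _ hne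
    cases nonempty_fintype (𝓞 F ⧸ v.asIdeal)
    obtain ⟨p, hc⟩ := CharP.exists (𝓞 F ⧸ v.asIdeal)
    obtain ⟨k, hp, hk⟩ := FiniteField.card (𝓞 F ⧸ v.asIdeal) p
    refine ⟨p, hp, ?_⟩
    rw [← Ideal.Quotient.eq_zero_iff_mem, map_natCast]
    exact CharP.cast_eq_zero _ _
  have h : ∀ v : HeightOneSpectrum (𝓞 F), ∃ P : (Ω ≃ₐ[ℚ] Ω) → Prop,
      (∀ (a : F) (y : Ω), a ≠ 0 → y ^ 2 = (a : Ω) → (∀ σ ∈ F.fixingSubgroup, P σ → σ y = y) → Lsq v a) ∧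
      (¬ Dy v → ∀ (a D : F) (y z : Ω) (N : ℕ), a ≠ 0 → D ≠ 0 → Od v a → ¬ Od v D → y ^ 2 = (a : Ω) →
        z ^ 2 = (D : Ω) →
        ∃ σ ∈ F.fixingSubgroup, P σ ∧ (2 : ℤ_[2]) ^ N ∣ chi σ - 1 ∧ σ z = z ∧ σ y ≠ y) ∧
      (∀ (ρ f : F.fixingSubgroup → ℤ_[2]), InSel ρ f → ∃ n b : ℤ_[2], n ≠ 0 ∧
        ∀ σ : F.fixingSubgroup, P σ.1 → n * f σ = (ρ σ - 1) * b) := by
    intro v
    obtain ⟨l, hl, hv⟩ := hp v
    haveI : Fact l.Prime := ⟨hl⟩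
    obtain ⟨j, hj1, hj2⟩ := hPLC Ω F v l hv
    refine ⟨fun σ => Dec j σ, hj2, ?_, ?_⟩
    · intro hdy a D y z N ha hD ha' hD' hy hz
      refine hUNR Ω F v l ?_ j hj1 a D y z N ha hD ha' hD' hy hz
      rintro rfl
      exact hdy (by simpa [Dy] using hv)
    · intro ρ f hf
      exact hf.tor l j
  choose P h1 h2 h3 using h
  exact ⟨P, h1, h2, h3⟩

/-- `ψ`, the character `chi` modulo signs -/
noncomputable def psi (σ : Ω ≃ₐ[ℚ] Ω) : ℤ_[2] :=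
  open Classical in if (4 : ℤ_[2]) ∣ chi σ - 1 then chi σ else - chi σ

lemma psi_dvd {i : Ω} (hi : i ^ 2 = -1) (σ : Ω ≃ₐ[ℚ] Ω) : (4 : ℤ_[2]) ∣ psi σ - 1 := by
  unfold psi
  split_ifs with h
  · exact h
  · obtain ⟨c, hc, h1, h2⟩ := chi_i hi σ
    rcases hc with rfl | rfl
    · exact absurd (by simpa using h2) h
    · have e : -chi σ - 1 = -(chi σ - ((-1 : ℤ) : ℤ_[2])) := by push_cast; ring
      rw [e]
      exact (dvd_neg).2 h2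

lemma psi_pow {i : Ω} (hi : i ^ 2 = -1) {σ : Ω ≃ₐ[ℚ] Ω} (hσ : σ ∈ F.fixingSubgroup) {d : F} {x : Ω}
    (hx : x ^ 2 = (d : Ω)) (r : ℕ) (h4 : (4 : ℤ_[2]) ∣ chi σ ^ r * sgn x σ - 1) :
    chi σ ^ r * sgn x σ = psi σ ^ r := by
  obtain ⟨s, hs, hs1, hs2⟩ := sgn_spec hσ hx
  obtain ⟨e, he, hψ⟩ : ∃ e : ℤ, (e = 1 ∨ e = -1) ∧ psi σ = (e : ℤ_[2]) * chi σ := by
    unfold psi
    split_ifs with h
    · exact ⟨1, Or.inl rfl, by simp⟩
    · exact ⟨-1, Or.inr rfl, by simp⟩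
  have h5 : (4 : ℤ_[2]) ∣ psi σ ^ r - 1 := (psi_dvd hi σ).trans (by simpa using sub_dvd_pow_sub_pow (psi σ) 1 r)
  have h6 := pow_pm he r
  have h7 : psi σ ^ r = ((e ^ r : ℤ) : ℤ_[2]) * chi σ ^ r := by
    rw [hψ, mul_pow]
    push_cast
    rfl
  have h8 : s = 1 ∧ e ^ r = 1 ∨ s = -1 ∧ e ^ r = -1 ∨ s = -(e ^ r) := by
    rcases hs with rfl | rfl <;> rcases h6 with h | h <;> simp [h]
  rcases h8 with ⟨h8, h9⟩ | ⟨h8, h9⟩ | h8
  · rw [h7, hs2, h8, h9]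
    push_cast
    ring
  · rw [h7, hs2, h8, h9]
    push_cast
    ring
  · exfalso
    have h9 : chi σ ^ r * sgn x σ = - psi σ ^ r := by
      rw [h7, hs2, h8]
      push_cast
      ring
    rw [h9] at h4
    have e2 : (-2 : ℤ_[2]) = (-psi σ ^ r - 1) + (psi σ ^ r - 1) := by ring
    have h10 : (4 : ℤ_[2]) ∣ -2 := by
      rw [e2]
      exact dvd_add h4 h5
    exact not4 ((dvd_neg).1 h10)

lemma conj_exists (φ : F →+* ℝ) : ∃ (j : Ω →+* ℂ) (c : Ω ≃ₐ[ℚ] Ω), (∀ a : F, j (a : Ω) = ((φ a : ℝ) : ℂ)) ∧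
    c ∈ F.fixingSubgroup ∧ c * c = 1 ∧ ∀ x, j (c x) = starRingEnd ℂ (j x) := by
  letI : Algebra F ℂ := ((algebraMap ℝ ℂ).comp φ).toAlgebra
  haveI : Algebra.IsAlgebraic F Ω := Algebra.IsAlgebraic.tower_top (K := ℚ) F
  haveI : Module.IsTorsionFree F ℂ :=
    Module.isTorsionFree_iff_algebraMap_injective.2 (algebraMap F ℂ).injective
  let j : Ω →ₐ[F] ℂ := IsAlgClosed.lift
  letI : Algebra Ω ℂ := j.toRingHom.toAlgebra
  haveI : IsScalarTower ℚ Ω ℂ := inferInstance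
  haveI : IsAlgClosure ℚ Ω := ⟨inferInstance, inferInstance⟩
  haveI : Normal ℚ Ω := IsAlgClosure.normal ℚ Ω
  have hc : ∀ x : Ω, j (((Complex.conjAe.restrictScalars ℚ : ℂ ≃ₐ[ℚ] ℂ).restrictNormal Ω) x) =
      starRingEnd ℂ (j x) := fun x => AlgEquiv.restrictNormal_commutes _ Ω x
  have hj : ∀ a : F, j (a : Ω) = ((φ a : ℝ) : ℂ) := fun a => j.commutes a
  refine ⟨j.toRingHom, (Complex.conjAe.restrictScalars ℚ : ℂ ≃ₐ[ℚ] ℂ).restrictNormal Ω, hj, ?_, ?_, hc⟩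
  · rw [IntermediateField.mem_fixingSubgroup_iff]
    intro x hx
    apply j.toRingHom.injective
    have h1 := hc x
    have h2 := hj ⟨x, hx⟩
    change j x = _ at h2
    rw [h2, Complex.conj_ofReal] at h1
    change j _ = j x
    rw [h1, h2]
  · ext x
    apply j.toRingHom.injective
    change j _ = j x
    rw [AlgEquiv.mul_apply, hc, hc, Complex.conj_conj]

lemma real_of_sq {w : ℂ} {t : ℝ} (ht : 0 < t) (h : w ^ 2 = (t : ℂ)) : starRingEnd ℂ w = w := by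
  rw [Complex.conj_eq_iff_im]
  have h1 := congrArg Complex.re h
  have h2 := congrArg Complex.im h
  simp only [pow_two, Complex.mul_re, Complex.mul_im, Complex.ofReal_re, Complex.ofReal_im] at h1 h2
  by_contra h3
  have h4 : w.re = 0 := by
    have h5 : w.re * w.im = 0 := by linarith
    exact (mul_eq_zero.1 h5).resolve_right h3
  rw [h4] at h1
  nlinarith [sq_nonneg w.im]

lemma pos_of_real {w : ℂ} {t : ℝ} (ht : t ≠ 0) (h : w ^ 2 = (t : ℂ)) (hw : starRingEnd ℂ w = w) : 0 < t := by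
  obtain ⟨r, rfl⟩ := Complex.conj_eq_iff_real.1 hw
  have h1 : r ^ 2 = t := by exact_mod_cast h
  rw [← h1]
  refine lt_of_le_of_ne (sq_nonneg r) ?_
  rw [h1]
  exact ht.symm

theorem con_real {r : ℕ} {d : F} {x : Ω} (hd : d ≠ 0) (hx : x ^ 2 = (d : Ω))
    {f : F.fixingSubgroup → ℤ_[2]} (hf : IsCoc (fun σ : F.fixingSubgroup => chi σ.1 ^ r * sgn x σ.1) f)
    {a : F} {y : Ω} (ha : a ≠ 0) (hy : y ^ 2 = (a : Ω)) (hfy : ∀ σ : F.fixingSubgroup, (2 : ℤ_[2]) ∣ f σ ↔ σ.1 y = y)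
    (φ : F →+* ℝ) (hφ : 0 < φ ((-1) ^ r * d)) : 0 < φ a := by
  obtain ⟨i, hi⟩ : ∃ i : Ω, i ^ 2 = -1 := IsAlgClosed.exists_pow_nat_eq (-1) (by norm_num)
  have hx0 : x ≠ 0 := by
    rintro rfl
    apply hd
    have h1 : (d : Ω) = 0 := by rw [← hx]; ring
    exact_mod_cast h1
  obtain ⟨j, c, hj, hcF, hcc, hjc⟩ := conj_exists (Ω := Ω) φ
  have hz : j (i ^ r * x) ^ 2 = ((φ ((-1) ^ r * d) : ℝ) : ℂ) := by
    rw [← map_pow, z_sq hi hx r, hj]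
  have h1 : c (i ^ r * x) = i ^ r * x := by
    apply j.injective
    rw [hjc, real_of_sq hφ hz]
  have h2 : (4 : ℤ_[2]) ∣ chi c ^ r * sgn x c - 1 := (rho_iff hi hcF hx hx0 r).1 h1
  have h3 : (chi c ^ r * sgn x c) * (chi c ^ r * sgn x c) = 1 := by
    rw [← rho_mul hcF hcF hx hx0, hcc, rho_one]
  have h4 : chi c ^ r * sgn x c = 1 := by
    rcases mul_self_eq_one_iff.1 h3 with h | h
    · exact h
    · exfalso
      rw [h] at h2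
      have e : (-1 - 1 : ℤ_[2]) = -2 := by norm_num
      rw [e] at h2
      exact not4 ((dvd_neg).1 h2)
  have h5 : f 1 = 0 := by
    have := hf.coc 1 1
    simp only [mul_one, OneMemClass.coe_one] at this
    rw [rho_one] at this
    linear_combination -this
  have h6 : f ⟨c, hcF⟩ = 0 := by
    have h7 := hf.coc ⟨c, hcF⟩ ⟨c, hcF⟩
    have h8 : (⟨c, hcF⟩ * ⟨c, hcF⟩ : F.fixingSubgroup) = 1 := Subtype.ext hcc
    rw [h8, h5] at h7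
    simp only at h7
    rw [h4] at h7
    have h9 : (2 : ℤ_[2]) * f ⟨c, hcF⟩ = 0 := by linear_combination -h7
    exact (mul_eq_zero.1 h9).resolve_left two_ne_zero
  have h7 : c y = y := (hfy ⟨c, hcF⟩).1 (by rw [h6]; exact dvd_zero _)
  have h8 : starRingEnd ℂ (j y) = j y := by rw [← hjc, h7]
  refine pos_of_real (w := j y) ?_ ?_ h8
  · intro h
    apply ha
    exact φ.injective (by rw [h, map_zero])
  · rw [← map_pow, hy, hj]

end loc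

end Pool.Agent.Q241.LS
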