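import Pool.Agent.Q241.LS.ConL

/-! # Project LS (helper283), job CON: the local conditions, main theorem -/

set_option autoImplicit false

namespace Pool.Agent.Q241.LS

open NumberField IsDedekindDomain Filter Topology Finset Pool.Agent.Q283.LQ Pool.Agent.Q283.LS

section

variable {Ω : Type} [Field Ω] [CharZero Ω] [IsAlgClosed Ω] [Algebra.IsAlgebraic ℚ Ω]
  {F : IntermediateField ℚ Ω} [NumberField F]

/-- the property `Q v a` of the docstring, for a set `P` of automorphisms -/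
def Qp (F : IntermediateField ℚ Ω) (P : (Ω ≃ₐ[ℚ] Ω) → Prop) (a : F) : Prop :=
  a ≠ 0 ∧ ∃ (y : Ω) (m : ℕ), y ^ 2 = (a : Ω) ∧
    (∀ σ ∈ F.fixingSubgroup, P σ → (2 : ℤ_[2]) ^ m ∣ psi σ - 1 ∧
      (σ y = y ↔ (2 : ℤ_[2]) ^ (m + 1) ∣ psi σ - 1)) ∧
    ∃ σ ∈ F.fixingSubgroup, P σ ∧ ¬ (2 : ℤ_[2]) ^ (m + 1) ∣ psi σ - 1

lemma fix_mul {σ : Ω ≃ₐ[ℚ] Ω} (hσ : σ ∈ F.fixingSubgroup) {a b : F} {y z : Ω} (hy : y ^ 2 = (a : Ω))
    (hz : z ^ 2 = (b : Ω)) (h : σ y = y ↔ σ z = z) : σ (y * z) = y * z := by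
  rw [map_mul]
  by_cases h1 : σ z = z
  · rw [h.2 h1, h1]
  · rw [(pm_sqrt hσ hz).resolve_left h1, (pm_sqrt hσ hy).resolve_left fun h2 => h1 (h.1 h2), neg_mul_neg]

lemma qp_mul {P : (Ω ≃ₐ[ℚ] Ω) → Prop} {v : HeightOneSpectrum (𝓞 F)}
    (hp1 : ∀ (a : F) (y : Ω), a ≠ 0 → y ^ 2 = (a : Ω) → (∀ σ ∈ F.fixingSubgroup, P σ → σ y = y) → Lsq v a)
    {a b : F} (ha : Qp F P a) (hb : Qp F P b) : Lsq v (a * b) := by
  obtain ⟨ha0, y, m, hy, hy1, σ1, hσ1, hP1, hn1⟩ := ha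
  obtain ⟨hb0, z, n, hz, hz1, σ2, hσ2, hP2, hn2⟩ := hb
  have hmn : m = n := by
    rcases lt_trichotomy m n with h | h | h
    · exact absurd ((pow_dvd_pow _ h).trans (hz1 σ1 hσ1 hP1).1) hn1
    · exact h
    · exact absurd ((pow_dvd_pow _ h).trans (hy1 σ2 hσ2 hP2).1) hn2
  subst hmn
  refine hp1 (a * b) (y * z) (mul_ne_zero ha0 hb0) ?_ ?_
  · rw [mul_pow, hy, hz]
    push_cast
    rfl
  · intro σ hσ hP
    exact fix_mul hσ hy hz ((hy1 σ hσ hP).2.trans (hz1 σ hσ hP).2.symm)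

end

theorem con (hBAS : S_BAS) (hPLC : S_PLC) (hUNR : S_UNR) : S_CON := by
  classical
  intro Ω _ _ _ _ F _
  obtain ⟨P, hp1, hp2, hp3⟩ := places (Ω := Ω) (F := F) hPLC hUNR
  obtain ⟨i, hi⟩ : ∃ i : Ω, i ^ 2 = -1 := IsAlgClosed.exists_pow_nat_eq (-1) (by norm_num)
  refine ⟨fun v => if h : ∃ a, Qp F (P v) a then h.choose else 1, ?_⟩
  intro r d x hr hd hx f hf a y ha hy hfy
  have hx0 : x ≠ 0 := by
    rintro rfl
    apply hd
    have h1 : (d : Ω) = 0 := by rw [← hx]; ring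
    exact_mod_cast h1
  set D : F := (-1) ^ r * d with hD
  have hD0 : D ≠ 0 := mul_ne_zero (pow_ne_zero _ (neg_ne_zero.2 one_ne_zero)) hd
  have hz : (i ^ r * x) ^ 2 = (D : Ω) := z_sq hi hx r
  -- the two cases
  have key : ∀ v, Lsq v a ∨ ∃ h0 : ℕ, 1 ≤ h0 ∧ ∀ σ ∈ F.fixingSubgroup, P v σ →
      (2 : ℤ_[2]) ^ h0 ∣ chi σ ^ r * sgn x σ - 1 ∧
        (σ y = y ↔ (2 : ℤ_[2]) ^ (h0 + 1) ∣ chi σ ^ r * sgn x σ - 1) := by
    intro v
    obtain ⟨n, b, hn, hb⟩ := hp3 v _ f hf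
    rcases two_cases (P := fun σ : F.fixingSubgroup => P v σ.1) hn hb
      (fun σ _ => rho_two σ.2 hx r) with h | ⟨h0, h1, h2⟩
    · left
      refine hp1 v a y ha hy ?_
      intro σ hσ hP
      exact (hfy ⟨σ, hσ⟩).1 (h ⟨σ, hσ⟩ hP)
    · right
      refine ⟨h0, h1, ?_⟩
      intro σ hσ hP
      have h3 := h2 ⟨σ, hσ⟩ hP
      exact ⟨h3.1, (hfy ⟨σ, hσ⟩).symm.trans h3.2⟩
  have e22 : (2 : ℤ_[2]) ^ 2 = 4 := by norm_num
  have key2 : ∀ v (h0 : ℕ), 1 ≤ h0 → (∀ σ ∈ F.fixingSubgroup, P v σ →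
      (2 : ℤ_[2]) ^ h0 ∣ chi σ ^ r * sgn x σ - 1 ∧
        (σ y = y ↔ (2 : ℤ_[2]) ^ (h0 + 1) ∣ chi σ ^ r * sgn x σ - 1)) →
      Lsq v (a * D) ∨ (2 ≤ h0 ∧ Lsq v D) := by
    intro v h0 h1 h2
    rcases Nat.eq_or_lt_of_le h1 with h3 | h3
    · left
      subst h3
      refine hp1 v (a * D) (y * (i ^ r * x)) (mul_ne_zero ha hD0) ?_ ?_
      · rw [mul_pow, hy, hz]
        push_cast
        rfl
      · intro σ hσ hP
        refine fix_mul hσ hy hz ((h2 σ hσ hP).2.trans ?_)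
        rw [e22]
        exact (rho_iff hi hσ hx hx0 r).symm
    · right
      refine ⟨h3, ?_⟩
      refine hp1 v D (i ^ r * x) hD0 hz ?_
      intro σ hσ hP
      refine (rho_iff hi hσ hx hx0 r).2 ?_
      rw [← e22]
      exact (pow_dvd_pow _ h3).trans (h2 σ hσ hP).1
  refine ⟨ha, ?_, ?_, ?_, ?_⟩
  · -- even
    intro v hv hDv hav
    rcases key v with h | ⟨h0, h1, h2⟩
    · exact ((hBAS F v).1 a h).2 hav
    · obtain ⟨σ, hσ, hP, hN, hσz, hσy⟩ := hp2 v hv a D y (i ^ r * x) (h0 + 1) ha hD0 hav hDv hy hz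
      apply hσy
      rw [(h2 σ hσ hP).2]
      -- `σ i = i`
      obtain ⟨c, hc, hc1, hc2⟩ := chi_i hi σ
      have h4 : (4 : ℤ_[2]) ∣ chi σ - 1 := by
        rw [← e22]
        exact (pow_dvd_pow _ (by omega)).trans hN
      have hc' : c = 1 := by
        rcases hc with hc | hc
        · exact hc
        · exfalso
          subst hc
          have e : (2 : ℤ_[2]) = (chi σ - ((-1 : ℤ) : ℤ_[2])) - (chi σ - 1) := by
            push_cast
            ring
          exact not4 (e ▸ dvd_sub hc2 h4)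
      rw [hc'] at hc1
      have hσi : σ i = i := by simpa using hc1
      have hi0 : i ≠ 0 := by
        rintro rfl
        norm_num at hi
      have hσx : σ x = x := by
        rw [map_mul, map_pow, hσi] at hσz
        exact mul_left_cancel₀ (pow_ne_zero r hi0) hσz
      have hs : sgn x σ = 1 := by
        unfold sgn
        simp [hσx]
      rw [hs, mul_one]
      exact hN.trans (by simpa using sub_dvd_pow_sub_pow (chi σ) 1 r)
  · -- odd
    intro v hv hDv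
    rcases key v with h | ⟨h0, h1, h2⟩
    · exact Or.inl h
    · rcases key2 v h0 h1 h2 with h | ⟨h3, h4⟩
      · exact Or.inr h
      · exact absurd hDv ((hBAS F v).1 D h4).2
  · -- two
    intro v hv
    refine ⟨ha, ?_⟩
    rcases key v with h | ⟨h0, h1, h2⟩
    · exact Or.inl h
    · rcases key2 v h0 h1 h2 with h | ⟨h3, h4⟩
      · exact Or.inr (Or.inl h)
      · by_cases hav : Lsq v a
        · exact Or.inl hav
        · refine Or.inr (Or.inr ⟨h4, ?_⟩)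
          obtain ⟨σ0, hσ0, hP0, hy0⟩ : ∃ σ ∈ F.fixingSubgroup, P v σ ∧ σ y ≠ y := by
            by_contra hcon
            push Not at hcon
            exact hav (hp1 v a y ha hy hcon)
          obtain ⟨k, r', hr', hrk⟩ : ∃ k r' : ℕ, Odd r' ∧ r = 2 ^ k * r' := by
            obtain ⟨k, m, hm, hkm⟩ := Nat.exists_eq_two_pow_mul_odd (n := r) (by omega)
            exact ⟨k, m, hm, hkm⟩
          have hρ : ∀ σ ∈ F.fixingSubgroup, P v σ → ∀ n : ℕ,
              (2 : ℤ_[2]) ^ n ∣ chi σ ^ r * sgn x σ - 1 ↔ (2 : ℤ_[2]) ^ n ∣ (psi σ - 1) * 2 ^ k := by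
            intro σ hσ hP n
            have h5 : (4 : ℤ_[2]) ∣ chi σ ^ r * sgn x σ - 1 := by
              rw [← e22]
              exact (pow_dvd_pow _ h3).trans (h2 σ hσ hP).1
            rw [psi_pow hi hσ hx r h5]
            exact lte (psi_dvd hi σ) hrk hr' n
          have hk : 2 + k ≤ h0 := by
            by_contra hk
            have h5 : (2 : ℤ_[2]) ^ (h0 + 1) ∣ (psi σ0 - 1) * 2 ^ k := by
              have h6 : (2 : ℤ_[2]) ^ (2 + k) ∣ (psi σ0 - 1) * 2 ^ k := by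
                rw [pow_add, e22]
                exact mul_dvd_mul (psi_dvd hi σ0) dvd_rfl
              exact (pow_dvd_pow _ (by omega)).trans h6
            exact hy0 ((h2 σ0 hσ0 hP0).2.2 ((hρ σ0 hσ0 hP0 _).2 h5))
          obtain ⟨m, rfl⟩ := Nat.exists_eq_add_of_le (show k ≤ h0 by omega)
          have h20 : ((2 : ℤ_[2]) ^ k) ≠ 0 := pow_ne_zero _ two_ne_zero
          have hcan : ∀ (n : ℕ) (X : ℤ_[2]), (2 : ℤ_[2]) ^ (k + n) ∣ X * 2 ^ k ↔ (2 : ℤ_[2]) ^ n ∣ X := by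
            intro n X
            rw [pow_add, mul_comm X]
            exact mul_dvd_mul_iff_left h20
          have hQ : Qp F (P v) a := by
            refine ⟨ha, y, m, hy, ?_, ?_⟩
            · intro σ hσ hP
              have h5 := h2 σ hσ hP
              rw [hρ σ hσ hP, hcan] at h5
              rw [hρ σ hσ hP, add_assoc, hcan] at h5
              exact h5
            · refine ⟨σ0, hσ0, hP0, ?_⟩
              intro h5
              apply hy0
              rw [(h2 σ0 hσ0 hP0).2, hρ σ0 hσ0 hP0, add_assoc, hcan]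
              exact h5
          have hex : ∃ a, Qp F (P v) a := ⟨a, hQ⟩
          have he : (if h : ∃ a, Qp F (P v) a then h.choose else (1 : F)) = hex.choose := dif_pos hex
          change Lsq v (a * (if h : ∃ a, Qp F (P v) a then h.choose else (1 : F)))
          rw [he]
          exact qp_mul (hp1 v) hQ hex.choose_spec
  · -- real
    intro φ hφ
    exact con_real hd hx hf.coc ha hy hfy φ hφ

end Pool.Agent.Q241.LS
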